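import Pool.Agent.J4H38.GS.Stm3
import Pool.Agent.J4H13.GS.Sm

/-! # Project GS3: (E3), polarised Parseval -/

set_option autoImplicit false

open MeasureTheory Set Filter
open scoped ComplexConjugate

namespace Pool.Agent.J4H66.GS

open Pool.Agent.J4H38.GS Pool.Agent.J4H13.GS

noncomputable section

/-- the function -/
def FF (s : ℂ) (a : ℝ) : ℂ := DD a s + 1 / (s - 1)

lemma ii_DD (s : ℂ) (hs : 0 < s.re) : IntervalIntegrable (fun a => DD a s) volume 0 1 := by
  rw [intervalIntegrable_iff_integrableOn_Ioc_of_le zero_le_one]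
  exact (memLp_DD s hs).integrable (by norm_num)

lemma ii_FF (s : ℂ) (hs : 0 < s.re) : IntervalIntegrable (FF s) volume 0 1 :=
  (ii_DD s hs).add intervalIntegrable_const

lemma cont_e (m : ℤ) : Continuous (fun a : ℝ => Complex.exp (-((2 * Real.pi * m * a : ℝ) : ℂ) * Complex.I)) := by
  fun_prop

lemma coefF (s : ℂ) (hs : 0 < s.re) (m : ℤ) :
    ∫ a in (0 : ℝ)..1, Complex.exp (-((2 * Real.pi * m * a : ℝ) : ℂ) * Complex.I) * FF s a = cc m s := by
  have i1 : IntervalIntegrable (fun a : ℝ => Complex.exp (-((2 * Real.pi * m * a : ℝ) : ℂ) * Complex.I) * DD a s)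
      volume 0 1 := (ii_DD s hs).continuousOn_mul (cont_e m).continuousOn
  have i2 : IntervalIntegrable (fun a : ℝ => Complex.exp (-((2 * Real.pi * m * a : ℝ) : ℂ) * Complex.I) *
      (1 / (s - 1))) volume 0 1 := ((cont_e m).mul continuous_const).intervalIntegrable _ _
  have e1 : ∀ a : ℝ, Complex.exp (-((2 * Real.pi * m * a : ℝ) : ℂ) * Complex.I) * FF s a =
      Complex.exp (-((2 * Real.pi * m * a : ℝ) : ℂ) * Complex.I) * DD a s +
      Complex.exp (-((2 * Real.pi * m * a : ℝ) : ℂ) * Complex.I) * (1 / (s - 1)) := by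
    intro a; unfold FF; ring
  simp only [e1]
  rw [intervalIntegral.integral_add i1 i2, intervalIntegral.integral_mul_const]
  unfold cc
  by_cases hm : m = 0
  · subst hm
    have e : ∀ a : ℝ, Complex.exp (-((2 * Real.pi * ((0 : ℤ) : ℝ) * a : ℝ) : ℂ) * Complex.I) = 1 := by
      intro a; simp
    simp only [e, one_mul]
    rw [coef_zero s hs]
    simp
  · rw [if_neg hm, coef_ne s hs m hm, exp_int m hm]
    have e0 : Complex.exp (-((2 * Real.pi * m * (0 : ℝ) : ℝ) : ℂ) * Complex.I) = 1 := by simp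
    have e1 : Complex.exp (-((2 * Real.pi * m * (1 : ℝ) : ℝ) : ℂ) * Complex.I) = 1 := by
      rw [Complex.exp_eq_one_iff]
      refine ⟨-m, ?_⟩
      push_cast
      ring
    rw [e0, e1]
    simp

lemma coefC (s s' c : ℂ) (hs : 0 < s.re) (hs' : 0 < s'.re) (m : ℤ) :
    fourierCoeffOn (zero_lt_one' ℝ) (fun a => FF s a + c * FF s' a) m = cc m s + c * cc m s' := by
  rw [fourierCoeffOn_eq_integral]
  rw [sub_zero, div_one, one_smul]
  rw [← coefF s hs m, ← coefF s' hs' m, ← intervalIntegral.integral_const_mul,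
    ← intervalIntegral.integral_add ((ii_FF s hs).continuousOn_mul (cont_e m).continuousOn)
      (((ii_FF s' hs').continuousOn_mul (cont_e m).continuousOn).const_mul c)]
  refine intervalIntegral.integral_congr ?_
  intro a _
  simp only [smul_eq_mul]
  rw [fourier_coe_apply]
  have e : Complex.exp (2 * Real.pi * Complex.I * ((-m : ℤ) : ℂ) * (a : ℂ) / ((1 : ℝ) : ℂ)) =
      Complex.exp (-((2 * Real.pi * m * a : ℝ) : ℂ) * Complex.I) := by
    congr 1
    push_cast
    ring
  rw [e]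
  ring

lemma memC (s s' c : ℂ) (hs : 0 < s.re) (hs' : 0 < s'.re) :
    MemLp (fun a => FF s a + c * FF s' a) 2 (volume.restrict (Ioc (0 : ℝ) 1)) := by
  have h1 : MemLp (FF s) 2 (volume.restrict (Ioc (0 : ℝ) 1)) :=
    (memLp_DD s hs).add (memLp_const _)
  have h2 : MemLp (FF s') 2 (volume.restrict (Ioc (0 : ℝ) 1)) :=
    (memLp_DD s' hs').add (memLp_const _)
  exact h1.add (h2.const_mul c)

lemma parC (s s' c : ℂ) (hs : 0 < s.re) (hs' : 0 < s'.re) :
    HasSum (fun m : ℤ => ((‖cc m s + c * cc m s'‖ ^ 2 : ℝ) : ℂ))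
      (∫ a in (0 : ℝ)..1, ((‖FF s a + c * FF s' a‖ ^ 2 : ℝ) : ℂ)) := by
  have h := hasSum_sq_fourierCoeffOn (zero_lt_one' ℝ) (memC s s' c hs hs')
  simp only [coefC s s' c hs hs'] at h
  rw [sub_zero, inv_one, one_smul] at h
  rw [intervalIntegral.integral_ofReal]
  exact Complex.hasSum_ofReal.2 h

lemma intC (s s' c : ℂ) (hs : 0 < s.re) (hs' : 0 < s'.re) :
    IntervalIntegrable (fun a => ((‖FF s a + c * FF s' a‖ ^ 2 : ℝ) : ℂ)) volume 0 1 := by
  rw [intervalIntegrable_iff_integrableOn_Ioc_of_le zero_le_one]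
  exact ((memC s s' c hs hs').integrable_norm_pow (by norm_num)).ofReal

lemma pol (z w : ℂ) : z * conj w = (((‖z + 1 * w‖ ^ 2 : ℝ) : ℂ) - ((‖z + (-1) * w‖ ^ 2 : ℝ) : ℂ) +
    Complex.I * (((‖z + Complex.I * w‖ ^ 2 : ℝ) : ℂ) - ((‖z + (-Complex.I) * w‖ ^ 2 : ℝ) : ℂ))) / 4 := by
  simp only [Complex.sq_norm, Complex.normSq_apply]
  apply Complex.ext
  · simp
    ring
  · simp
    ring

theorem t_E3 : S_E3 := by
  intro s s' hs hs'
  have h := ((((parC s s' 1 hs hs').sub (parC s s' (-1) hs hs')).add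
    (((parC s s' Complex.I hs hs').sub (parC s s' (-Complex.I) hs hs')).mul_left Complex.I))).div_const 4
  simp only [← pol] at h
  have i1 := intC s s' 1 hs hs'
  have i2 := intC s s' (-1) hs hs'
  have i3 := intC s s' Complex.I hs hs'
  have i4 := intC s s' (-Complex.I) hs hs'
  rw [← intervalIntegral.integral_sub i1 i2, ← intervalIntegral.integral_sub i3 i4,
    ← intervalIntegral.integral_const_mul,
    ← intervalIntegral.integral_add (i1.sub i2) ((i3.sub i4).const_mul _),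
    ← intervalIntegral.integral_div] at h
  have e2 : (∫ a in (0 : ℝ)..1, (((‖FF s a + 1 * FF s' a‖ ^ 2 : ℝ) : ℂ) - ((‖FF s a + (-1) * FF s' a‖ ^ 2 : ℝ) : ℂ) +
      Complex.I * (((‖FF s a + Complex.I * FF s' a‖ ^ 2 : ℝ) : ℂ) -
        ((‖FF s a + (-Complex.I) * FF s' a‖ ^ 2 : ℝ) : ℂ))) / 4) =
      ∫ a in (0 : ℝ)..1, (DD a s + 1 / (s - 1)) * conj (DD a s' + 1 / (s' - 1)) := by
    refine intervalIntegral.integral_congr ?_
    intro a _
    exact (pol (FF s a) (FF s' a)).symm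
  rw [e2] at h
  exact h

end

end Pool.Agent.J4H66.GS
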